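import Mathlib
import Pool.Agent.X7.CyclicTools
import Pool.Agent.X7.Fiber

/-!
# Noisy `(k,ℓ)`-sum-free sets in cyclic groups for interval noise

For `C = {0, 1, …, c-1}`, `c ≥ 2`, the largest `C`-`(k,ℓ)`-sum-free subset of `ℤ/n` has size
`max {0, L}`, and this size is attained by an interval.
-/

set_option autoImplicit false

open Finset
open scoped Pointwise

namespace Pool.Agent.Results.MP_4e78b4_co.IntervalNoise

open Pool.Agent.Helper591.Kneser Pool.Agent.X7.KneserTools Pool.Agent.X7.CyclicTools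

/-- The noise `C = {0, 1, …, c-1}` read modulo `n`. -/
def noise (n c : ℕ) : Finset (ZMod n) := (range c).image (fun i : ℕ => (i : ZMod n))

/-- `m *_C A = mA + (m-1)C`, where `mA` is the `m`-fold sumset. -/
def star {n : ℕ} (c m : ℕ) (A : Finset (ZMod n)) : Finset (ZMod n) :=
  sm m A + sm (m - 1) (noise n c)

/-- `A` is `C`-`(k,ℓ)`-sum-free: `k *_C A` and `ℓ *_C A` are disjoint. -/
def NoisySumFree {n : ℕ} (k l c : ℕ) (A : Finset (ZMod n)) : Prop :=
  Disjoint (star c k A) (star c l A)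

/-- `μ^C_{k,ℓ}(ℤ/n)`: the largest size of a `C`-`(k,ℓ)`-sum-free subset of `ℤ/n`. -/
noncomputable def mu (n k l c : ℕ) : ℕ :=
  sSup {m | ∃ A : Finset (ZMod n), NoisySumFree k l c A ∧ A.card = m}

/-- `χ = ⌊(n + 2(c-2))/(k+ℓ)⌋ - (c-2)`. -/
def chi (n k l c : ℕ) : ℤ := ((n : ℤ) + 2 * ((c : ℤ) - 2)) / ((k : ℤ) + l) - ((c : ℤ) - 2)

/-- `r`: the residue of `-kχ - (k-1)(c-2)` modulo `δ = gcd(n, k-ℓ)`. -/
def res (n k l c : ℕ) : ℤ :=
  (-(k : ℤ) * chi n k l c - ((k : ℤ) - 1) * ((c : ℤ) - 2)) % ((Nat.gcd n (k - l) : ℕ) : ℤ)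

/-- `L = ⌊(n + 2(c-2) - r)/(k+ℓ)⌋ - (c-2)`. -/
def bigL (n k l c : ℕ) : ℤ :=
  ((n : ℤ) + 2 * ((c : ℤ) - 2) - res n k l c) / ((k : ℤ) + l) - ((c : ℤ) - 2)

/-- The arithmetic criterion for the existence of a sum-free interval of length `m`. -/
def Crit (n k l c : ℕ) (m : ℤ) : Prop :=
  ∃ t : ℤ, ((Nat.gcd n (k - l) : ℕ) : ℤ) ∣ t ∧
    (k : ℤ) * m + ((k : ℤ) - 1) * ((c : ℤ) - 2) ≤ t ∧
    t + (l : ℤ) * m + ((l : ℤ) - 1) * ((c : ℤ) - 2) ≤ n

theorem noise_eq (n c : ℕ) : noise n c = iv 0 c := by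
  unfold noise iv
  congr 1
  ext i
  simp

section formula

variable {n k l c : ℕ}

theorem delta_pos (hlk : l < k) : (0 : ℤ) < ((Nat.gcd n (k - l) : ℕ) : ℤ) := by
  exact_mod_cast Nat.gcd_pos_of_pos_right n (by omega)

theorem delta_le (hlk : l < k) : ((Nat.gcd n (k - l) : ℕ) : ℤ) ≤ (k : ℤ) - l := by
  have h1 : Nat.gcd n (k - l) ≤ k - l := Nat.gcd_le_right n (by omega)
  have h2 : ((k - l : ℕ) : ℤ) = (k : ℤ) - l := by omega
  rw [← h2]
  exact_mod_cast h1

/-- The least multiple of `δ` that is at least `X` is `X + ((-X) mod δ)`. -/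
theorem dvd_add_emod (δ X : ℤ) : δ ∣ X + (-X) % δ := by
  have h := Int.emod_add_mul_ediv (-X) δ
  refine ⟨-((-X) / δ), ?_⟩
  linarith

theorem crit_of_slack (hl : 1 ≤ l) (hlk : l < k) (m : ℤ)
    (h : ((k : ℤ) + l) * m + ((k : ℤ) + l - 2) * ((c : ℤ) - 2) + ((k : ℤ) + l - 2) ≤ n) :
    Crit n k l c m := by
  have h1 := delta_pos (n := n) hlk
  have h2 := delta_le (n := n) hlk
  have hl' : (1 : ℤ) ≤ l := by exact_mod_cast hl
  refine ⟨_, dvd_add_emod ((Nat.gcd n (k - l) : ℕ) : ℤ)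
    ((k : ℤ) * m + ((k : ℤ) - 1) * ((c : ℤ) - 2)), ?_, ?_⟩
  · have := Int.emod_nonneg (-((k : ℤ) * m + ((k : ℤ) - 1) * ((c : ℤ) - 2))) h1.ne'
    linarith
  · have := Int.emod_lt_of_pos (-((k : ℤ) * m + ((k : ℤ) - 1) * ((c : ℤ) - 2))) h1
    linarith

theorem le_bigL_of_crit (hl : 1 ≤ l) (hlk : l < k) (m : ℤ) (h : Crit n k l c m) :
    m ≤ bigL n k l c := by
  obtain ⟨t, hdvd, ht1, ht2⟩ := h
  have hl' : (1 : ℤ) ≤ l := by exact_mod_cast hl
  have hk' : (l : ℤ) < k := by exact_mod_cast hlk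
  have hkl : (0 : ℤ) < (k : ℤ) + l := by linarith
  have h1 := delta_pos (n := n) hlk
  have h2 := delta_le (n := n) hlk
  have hmchi : m ≤ chi n k l c := by
    unfold chi
    have : m + ((c : ℤ) - 2) ≤ ((n : ℤ) + 2 * ((c : ℤ) - 2)) / ((k : ℤ) + l) := by
      rw [Int.le_ediv_iff_mul_le hkl]
      linarith
    linarith
  have hchi : (chi n k l c + ((c : ℤ) - 2)) * ((k : ℤ) + l) ≤ (n : ℤ) + 2 * ((c : ℤ) - 2) := by
    have e : chi n k l c + ((c : ℤ) - 2) = ((n : ℤ) + 2 * ((c : ℤ) - 2)) / ((k : ℤ) + l) := by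
      unfold chi; ring
    rw [e]
    exact Int.ediv_mul_le _ hkl.ne'
  have hr0 : 0 ≤ res n k l c := Int.emod_nonneg _ h1.ne'
  have hr1 : res n k l c < ((Nat.gcd n (k - l) : ℕ) : ℤ) := Int.emod_lt_of_pos _ h1
  unfold bigL
  have key : m + ((c : ℤ) - 2) ≤
      ((n : ℤ) + 2 * ((c : ℤ) - 2) - res n k l c) / ((k : ℤ) + l) := by
    rw [Int.le_ediv_iff_mul_le hkl]
    rcases lt_or_eq_of_le hmchi with hlt | heq
    · have h3 : m + 1 ≤ chi n k l c := hlt
      have h4 : (m + 1) * ((k : ℤ) + l) ≤ chi n k l c * ((k : ℤ) + l) :=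
        mul_le_mul_of_nonneg_right h3 hkl.le
      linarith
    · set X := (k : ℤ) * m + ((k : ℤ) - 1) * ((c : ℤ) - 2) with hX
      have hres : res n k l c = (-X) % ((Nat.gcd n (k - l) : ℕ) : ℤ) := by
        unfold res
        rw [← heq, hX]
        congr 1
        ring
      have h3 : res n k l c ≤ t - X := by
        rw [hres]
        obtain ⟨q, hq⟩ := hdvd
        have h5 : (t - X) % ((Nat.gcd n (k - l) : ℕ) : ℤ) =
            (-X) % ((Nat.gcd n (k - l) : ℕ) : ℤ) := by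
          rw [hq]
          have : ((Nat.gcd n (k - l) : ℕ) : ℤ) * q - X =
              -X + ((Nat.gcd n (k - l) : ℕ) : ℤ) * q := by ring
          rw [this, Int.add_mul_emod_self_left]
        rw [← h5]
        have h6 := Int.emod_add_mul_ediv (t - X) ((Nat.gcd n (k - l) : ℕ) : ℤ)
        have h7 : 0 ≤ (t - X) / ((Nat.gcd n (k - l) : ℕ) : ℤ) :=
          Int.ediv_nonneg (by linarith) h1.le
        have h8 : 0 ≤ ((Nat.gcd n (k - l) : ℕ) : ℤ) * ((t - X) / ((Nat.gcd n (k - l) : ℕ) : ℤ)) :=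
          mul_nonneg h1.le h7
        linarith
      linarith
  linarith

theorem crit_bigL (hl : 1 ≤ l) (hlk : l < k) : Crit n k l c (bigL n k l c) := by
  have hl' : (1 : ℤ) ≤ l := by exact_mod_cast hl
  have hk' : (l : ℤ) < k := by exact_mod_cast hlk
  have hkl : (0 : ℤ) < (k : ℤ) + l := by linarith
  have h1 := delta_pos (n := n) hlk
  have h2 := delta_le (n := n) hlk
  have hr0 : 0 ≤ res n k l c := Int.emod_nonneg _ h1.ne'
  have hL : (bigL n k l c + ((c : ℤ) - 2)) * ((k : ℤ) + l) ≤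
      (n : ℤ) + 2 * ((c : ℤ) - 2) - res n k l c := by
    have e : bigL n k l c + ((c : ℤ) - 2) =
        ((n : ℤ) + 2 * ((c : ℤ) - 2) - res n k l c) / ((k : ℤ) + l) := by
      unfold bigL; ring
    rw [e]
    exact Int.ediv_mul_le _ hkl.ne'
  have hchi : (chi n k l c + ((c : ℤ) - 2)) * ((k : ℤ) + l) ≤ (n : ℤ) + 2 * ((c : ℤ) - 2) := by
    have e : chi n k l c + ((c : ℤ) - 2) = ((n : ℤ) + 2 * ((c : ℤ) - 2)) / ((k : ℤ) + l) := by
      unfold chi; ring
    rw [e]
    exact Int.ediv_mul_le _ hkl.ne'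
  have hLchi : bigL n k l c ≤ chi n k l c := by
    unfold bigL chi
    have : ((n : ℤ) + 2 * ((c : ℤ) - 2) - res n k l c) / ((k : ℤ) + l) ≤
        ((n : ℤ) + 2 * ((c : ℤ) - 2)) / ((k : ℤ) + l) :=
      Int.ediv_le_ediv hkl (by linarith)
    linarith
  set X := (k : ℤ) * bigL n k l c + ((k : ℤ) - 1) * ((c : ℤ) - 2) with hX
  refine ⟨X + (-X) % ((Nat.gcd n (k - l) : ℕ) : ℤ), dvd_add_emod _ X, ?_, ?_⟩
  · have := Int.emod_nonneg (-X) h1.ne'
    linarith
  · rcases lt_or_eq_of_le hLchi with hlt | heq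
    · have h3 : bigL n k l c + 1 ≤ chi n k l c := hlt
      have h4 : (bigL n k l c + 1) * ((k : ℤ) + l) ≤ chi n k l c * ((k : ℤ) + l) :=
        mul_le_mul_of_nonneg_right h3 hkl.le
      have := Int.emod_lt_of_pos (-X) h1
      rw [hX] at this ⊢
      linarith
    · have hres : (-X) % ((Nat.gcd n (k - l) : ℕ) : ℤ) = res n k l c := by
        unfold res
        rw [← heq, hX]
        congr 1
        ring
      rw [hres, hX]
      linarith

/-- Scaling the criterion from `d` to `d e`. -/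
theorem crit_scale {d e : ℕ} (hc : 2 ≤ c) (hl : 1 ≤ l) (hlk : l < k) (he : 1 ≤ e) (m m' : ℤ)
    (hm : m ≤ e * m') (h : Crit d k l c m') : Crit (d * e) k l c m := by
  obtain ⟨t, hdvd, ht1, ht2⟩ := h
  have hl' : (1 : ℤ) ≤ l := by exact_mod_cast hl
  have hk' : (l : ℤ) < k := by exact_mod_cast hlk
  have hc' : (2 : ℤ) ≤ c := by exact_mod_cast hc
  have he' : (1 : ℤ) ≤ e := by exact_mod_cast he
  refine ⟨e * t, ?_, ?_, ?_⟩
  · have h1 : Nat.gcd (d * e) (k - l) ∣ Nat.gcd d (k - l) * e := by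
      have h2 : Nat.gcd d (k - l) * e = Nat.gcd (d * e) ((k - l) * e) :=
        (Nat.gcd_mul_right d e (k - l)).symm
      rw [h2]
      exact Nat.gcd_dvd_gcd_mul_right_right _ _ _
    have h3 : ((Nat.gcd (d * e) (k - l) : ℕ) : ℤ) ∣ ((Nat.gcd d (k - l) * e : ℕ) : ℤ) := by
      exact_mod_cast h1
    refine dvd_trans h3 ?_
    push_cast
    rw [mul_comm]
    exact mul_dvd_mul_left _ hdvd
  · have h1 : (e : ℤ) * ((k : ℤ) * m' + ((k : ℤ) - 1) * ((c : ℤ) - 2)) ≤ e * t :=
      mul_le_mul_of_nonneg_left ht1 (by linarith)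
    have h2 : (k : ℤ) * m ≤ k * (e * m') := mul_le_mul_of_nonneg_left hm (by linarith)
    have h3 : 0 ≤ ((e : ℤ) - 1) * (((k : ℤ) - 1) * ((c : ℤ) - 2)) :=
      mul_nonneg (by linarith) (mul_nonneg (by linarith) (by linarith))
    nlinarith
  · have h1 : (e : ℤ) * (t + (l : ℤ) * m' + ((l : ℤ) - 1) * ((c : ℤ) - 2)) ≤ e * d :=
      mul_le_mul_of_nonneg_left ht2 (by linarith)
    have h2 : (l : ℤ) * m ≤ l * (e * m') := mul_le_mul_of_nonneg_left hm (by linarith)
    have h3 : 0 ≤ ((e : ℤ) - 1) * (((l : ℤ) - 1) * ((c : ℤ) - 2)) :=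
      mul_nonneg (by linarith) (mul_nonneg (by linarith) (by linarith))
    push_cast
    nlinarith

end formula

section combinatorial

variable {n : ℕ} [NeZero n] {k l c : ℕ}

theorem star_noninterval (j : ℕ) (hj : 1 ≤ j) (A : Finset (ZMod n)) :
    star c j A = A + sm (j - 1) (A + iv 0 c) := by
  unfold star
  rw [noise_eq, sm_add_distrib]
  have : sm j A = A + sm (j - 1) A := by
    obtain ⟨i, rfl⟩ : ∃ i, j = i + 1 := ⟨j - 1, by omega⟩
    rw [sm_succ, Nat.add_sub_cancel, add_comm]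
  rw [this, add_assoc]

theorem star_nonempty (hc : 1 ≤ c) (j : ℕ) {A : Finset (ZMod n)} (hA : A.Nonempty) :
    (star c j A).Nonempty := by
  unfold star
  rw [noise_eq]
  exact (sm_nonempty hA j).add (sm_nonempty (iv_nonempty 0 hc) _)

theorem univ_add {X : Finset (ZMod n)} (hX : X.Nonempty) : X + univ = univ := by
  obtain ⟨x, hx⟩ := hX
  ext y
  simp only [mem_univ, iff_true]
  exact mem_add.2 ⟨x, hx, y - x, mem_univ _, by ring⟩

theorem sm_univ (j : ℕ) (hj : 1 ≤ j) : sm j (univ : Finset (ZMod n)) = univ := by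
  obtain ⟨i, rfl⟩ : ∃ i, j = i + 1 := ⟨j - 1, by omega⟩
  rw [sm_succ]
  exact univ_add (sm_nonempty univ_nonempty i)

theorem bound_one (hc : 1 ≤ c) (hcn : c ≤ n) (j : ℕ) (hj : 1 ≤ j) {A : Finset (ZMod n)}
    (hA : A.Nonempty) (hst : stab (star c j A) = ⊥) :
    (j : ℤ) * A.card + ((j : ℤ) - 1) * ((c : ℤ) - 2) ≤ (star c j A).card := by
  unfold star at hst ⊢
  rw [noise_eq] at hst ⊢
  have h1 := kneser_aper (sm_nonempty hA j) (sm_nonempty (iv_nonempty 0 hc) (j - 1)) hst
  have h2 := sm_card_lower hA j (stab_le_left hst)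
  have h3 := sm_card_lower (iv_nonempty (0 : ZMod n) hc) (j - 1) (stab_le_right hst)
  rw [iv_card (0 : ZMod n) c hcn] at h3
  obtain ⟨i, rfl⟩ : ∃ i, j = i + 1 := ⟨j - 1, by omega⟩
  rw [Nat.add_sub_cancel] at h1 h3 ⊢
  zify at h1 h2 h3
  push_cast
  linarith

theorem bound_two (hc : 1 ≤ c) (j : ℕ) (hj : 1 ≤ j) {A : Finset (ZMod n)}
    (hA : A.Nonempty) (hst : stab (star c j A) = ⊥) (hE : A.card + c ≤ (A + iv 0 c).card) :
    (j : ℤ) * A.card + ((j : ℤ) - 1) * ((c : ℤ) - 1) ≤ (star c j A).card := by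
  rw [star_noninterval j hj A] at hst ⊢
  have hEne : (A + iv 0 c).Nonempty := hA.add (iv_nonempty 0 hc)
  have h1 := kneser_aper hA (sm_nonempty hEne (j - 1)) hst
  have h3 := sm_card_lower hEne (j - 1) (stab_le_right hst)
  obtain ⟨i, rfl⟩ : ∃ i, j = i + 1 := ⟨j - 1, by omega⟩
  rw [Nat.add_sub_cancel] at h1 h3 ⊢
  have h4 : i * (A.card + c) ≤ i * (A + iv 0 c).card := Nat.mul_le_mul_left i hE
  zify at h1 h3 h4
  push_cast
  linarith

/-- The interval `star`. -/
theorem star_iv (a : ZMod n) (hc : 1 ≤ c) (j : ℕ) (m : ℕ) (hm : 1 ≤ m) :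
    star c j (iv a m) = iv (j • a) (j * (m - 1) + (j - 1) * (c - 1) + 1) := by
  unfold star
  rw [noise_eq]
  obtain ⟨p, rfl⟩ : ∃ p, m = p + 1 := ⟨m - 1, by omega⟩
  obtain ⟨q, rfl⟩ : ∃ q, c = q + 1 := ⟨c - 1, by omega⟩
  rw [sm_iv, sm_iv, iv_add, smul_zero, add_zero]
  rfl

theorem crit_of_interval (hl : 1 ≤ l) (hlk : l < k) (hc : 2 ≤ c) (a : ZMod n) (m : ℕ)
    (hm : 1 ≤ m) (hd : Disjoint (star c k (iv a m)) (star c l (iv a m))) :
    Crit n k l c m := by
  have hn : 0 < n := Nat.pos_of_ne_zero (NeZero.ne n)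
  rw [star_iv a (by omega) k m hm, star_iv a (by omega) l m hm] at hd
  set Q := k * (m - 1) + (k - 1) * (c - 1) with hQ
  set P := l * (m - 1) + (l - 1) * (c - 1) with hP
  set w : ZMod n := k • a - l • a with hw
  set t0 := (w - ((P + 1 : ℕ) : ZMod n)).val with ht0
  have ht0n : t0 < n := ZMod.val_lt _
  have ht0c : ((t0 : ℕ) : ZMod n) = w - ((P + 1 : ℕ) : ZMod n) := by
    rw [ht0, ZMod.natCast_zmod_val]
  set t := P + 1 + t0 with ht
  have htc : ((t : ℕ) : ZMod n) = w := by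
    rw [ht, Nat.cast_add, ht0c]; ring
  have htQ : t + Q < n := by
    by_contra hcon
    push Not at hcon
    -- find `u ≤ Q`, `v ≤ P` with `t + u = n + v`
    obtain ⟨u, v, hu, hv, huv⟩ : ∃ u v : ℕ, u ≤ Q ∧ v ≤ P ∧ t + u = n + v := by
      rcases Nat.lt_or_ge n t with h | h
      · exact ⟨0, t - n, Nat.zero_le _, by omega, by omega⟩
      · exact ⟨n - t, 0, by omega, Nat.zero_le _, by omega⟩
    have h1 : ((t + u : ℕ) : ZMod n) = ((n + v : ℕ) : ZMod n) := by rw [huv]
    push_cast at h1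
    rw [htc, ZMod.natCast_self, zero_add] at h1
    have h2 : k • a + (u : ZMod n) = l • a + (v : ZMod n) := by
      rw [← h1, hw]; ring
    exact disjoint_left.1 hd (mem_iv.2 ⟨u, by omega, rfl⟩) (mem_iv.2 ⟨v, by omega, h2.symm⟩)
  refine ⟨(n : ℤ) - t, ?_, ?_, ?_⟩
  · -- divisibility
    have h1 : ((Nat.gcd n (k - l) : ℕ) : ℤ) ∣ (n : ℤ) := by
      exact_mod_cast Nat.gcd_dvd_left n (k - l)
    have h2 : ((Nat.gcd n (k - l) : ℕ) : ℤ) ∣ ((k - l : ℕ) : ℤ) := by
      exact_mod_cast Nat.gcd_dvd_right n (k - l)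
    have h3 : (((t : ℤ) - ((k - l : ℕ) : ℤ) * a.val : ℤ) : ZMod n) = 0 := by
      have hkl : ((k - l : ℕ) : ZMod n) = (k : ZMod n) - (l : ZMod n) := by
        rw [Nat.cast_sub hlk.le]
      push_cast
      rw [htc, hkl, ZMod.natCast_zmod_val, hw, nsmul_eq_mul, nsmul_eq_mul]
      ring
    rw [ZMod.intCast_zmod_eq_zero_iff_dvd] at h3
    have h4 : ((Nat.gcd n (k - l) : ℕ) : ℤ) ∣ (t : ℤ) := by
      have h5 := dvd_trans h1 h3
      have h6 := Dvd.dvd.mul_right h2 ((a.val : ℕ) : ℤ)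
      have h7 := dvd_add h5 h6
      rwa [sub_add_cancel] at h7
    exact dvd_sub h1 h4
  · have e : ((Q + 1 : ℕ) : ℤ) = (k : ℤ) * m + ((k : ℤ) - 1) * ((c : ℤ) - 2) := by
      obtain ⟨p, rfl⟩ : ∃ p, m = p + 1 := ⟨m - 1, by omega⟩
      obtain ⟨q, rfl⟩ : ∃ q, c = q + 1 := ⟨c - 1, by omega⟩
      obtain ⟨i, rfl⟩ : ∃ i, k = i + 1 := ⟨k - 1, by omega⟩
      rw [hQ]
      simp only [Nat.add_sub_cancel]
      push_cast
      ring
    rw [← e]
    omega
  · have e : ((P + 1 : ℕ) : ℤ) = (l : ℤ) * m + ((l : ℤ) - 1) * ((c : ℤ) - 2) := by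
      obtain ⟨p, rfl⟩ : ∃ p, m = p + 1 := ⟨m - 1, by omega⟩
      obtain ⟨q, rfl⟩ : ∃ q, c = q + 1 := ⟨c - 1, by omega⟩
      obtain ⟨i, rfl⟩ : ∃ i, l = i + 1 := ⟨l - 1, by omega⟩
      rw [hP]
      simp only [Nat.add_sub_cancel]
      push_cast
      ring
    rw [add_assoc, ← e]
    omega

/-- The aperiodic case. -/
theorem crit_aperiodic (hl : 1 ≤ l) (hlk : l < k) (hc : 2 ≤ c) {A : Finset (ZMod n)}
    (hA : A.Nonempty) (hd : Disjoint (star c k A) (star c l A))
    (hst : stab (star c k A + -(star c l A)) = ⊥) : Crit n k l c A.card := by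
  have hn : 0 < n := Nat.pos_of_ne_zero (NeZero.ne n)
  have hXne : (star c k A).Nonempty := star_nonempty (by omega) k hA
  have hYne : (star c l A).Nonempty := star_nonempty (by omega) l hA
  have hXu : star c k A ≠ univ := by
    intro h
    rw [h] at hd
    obtain ⟨y, hy⟩ := hYne
    exact disjoint_left.1 hd (mem_univ y) hy
  have hEu : A + iv 0 c ≠ univ := by
    intro h
    apply hXu
    rw [star_noninterval k (by omega) A, h, sm_univ (k - 1) (by omega)]
    exact univ_add hA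
  have hcn : c ≤ n := by
    by_contra hcon
    push Not at hcon
    apply hEu
    rw [iv_univ (0 : ZMod n) c hcon.le]
    exact univ_add hA
  have h0 : (0 : ZMod n) ∉ star c k A + -(star c l A) := by
    intro h
    obtain ⟨x, hx, y, hy, hxy⟩ := mem_add.1 h
    rw [mem_neg'] at hy
    have : x = -y := eq_neg_of_add_eq_zero_left hxy
    rw [this] at hx
    exact disjoint_left.1 hd hx hy
  have hcard : (star c k A + -(star c l A)).card < n := by
    calc (star c k A + -(star c l A)).card < (univ : Finset (ZMod n)).card :=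
          card_lt_card (ssubset_univ_iff.2 (fun h => h0 (h ▸ mem_univ 0)))
      _ = n := by rw [card_univ, ZMod.card]
  have hXst := stab_le_left hst
  have hYst : stab (star c l A) = ⊥ := by
    rw [← stab_neg]
    exact stab_le_right hst
  have hsum := kneser_aper hXne hYne.neg hst
  rw [card_neg] at hsum
  have hle : (star c k A).card + (star c l A).card ≤ n := by omega
  by_cases hint : ∃ x : ZMod n, A = iv x A.card
  · obtain ⟨x, hx⟩ := hint
    have hm : 1 ≤ A.card := card_pos.2 hA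
    rw [hx] at hd
    exact crit_of_interval hl hlk hc x A.card hm hd
  · have hE := add_iv_card hA hint c hc hEu
    have h1 := bound_two (c := c) (by omega) k (by omega) hA hXst hE
    have h2 := bound_two (c := c) (by omega) l hl hA hYst hE
    apply crit_of_slack hl hlk
    zify at hle
    linarith

end combinatorial

/-- Every nonempty sum-free set satisfies the criterion. -/
theorem crit_of_sumFree (N : ℕ) : ∀ (n : ℕ) [NeZero n] (k l c : ℕ), n ≤ N → 1 ≤ l → l < k → 2 ≤ c →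
    ∀ A : Finset (ZMod n), A.Nonempty → Disjoint (star c k A) (star c l A) →
    Crit n k l c A.card := by
  induction N with
  | zero =>
    intro n _ k l c hn
    exact absurd (Nat.le_zero.1 hn) (NeZero.ne n)
  | succ N ih =>
    intro n _ k l c hn hl hlk hc A hA hd
    by_cases hst : stab (star c k A + -(star c l A)) = ⊥
    · exact crit_aperiodic hl hlk hc hA hd hst
    · obtain ⟨d, e, hde, hd1, he2, hker⟩ := exists_quotient _ hst
      have : NeZero d := ⟨by omega⟩
      subst hde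
      set f := ZMod.castHom (Dvd.intro e rfl : d ∣ d * e) (ZMod d) with hf
      have hdN : d ≤ N := by
        have : d * 2 ≤ d * e := Nat.mul_le_mul_left d he2
        omega
      have hnoise : noise d c = (noise (d * e) c).image f := by
        unfold noise
        rw [image_image]
        congr 1
        ext i
        simp
      have hstar : ∀ j : ℕ, star c j (A.image f) = (star c j A).image f := by
        intro j
        unfold star
        rw [hnoise]
        have h1 := Pool.Agent.Helper591.CyclicZero.sm_image f.toAddMonoidHom A j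
        have h2 := Pool.Agent.Helper591.CyclicZero.sm_image f.toAddMonoidHom
          (noise (d * e) c) (j - 1)
        have e1 : ∀ X : Finset (ZMod (d * e)), X.image f.toAddMonoidHom = X.image f := fun _ => rfl
        rw [e1, e1] at h1 h2
        rw [h1, h2]
        exact (image_add f).symm
      have hd' : Disjoint (star c k (A.image f)) (star c l (A.image f)) := by
        rw [hstar, hstar, disjoint_left]
        intro z hz1 hz2
        obtain ⟨x, hx, rfl⟩ := mem_image.1 hz1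
        obtain ⟨y, hy, hxy⟩ := mem_image.1 hz2
        have h1 : y - x ∈ stab (star c k A + -(star c l A)) := by
          apply hker
          rw [map_sub, hxy, sub_self]
        have h2 : x + -y ∈ star c k A + -(star c l A) :=
          add_mem_add hx (by rw [mem_neg', neg_neg]; exact hy)
        have h3 := (h1 (x + -y)).2 h2
        have h4 : y - x + (x + -y) = 0 := by ring
        rw [h4] at h3
        obtain ⟨u, hu, v, hv, huv⟩ := mem_add.1 h3
        rw [mem_neg'] at hv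
        have : u = -v := eq_neg_of_add_eq_zero_left huv
        rw [this] at hu
        exact disjoint_left.1 hd hu hv
      have hcrit := ih d k l c hdN hl hlk hc (A.image f) (hA.image f) hd'
      refine crit_scale hc hl hlk (by omega) _ _ ?_ hcrit
      have hfib := Pool.Agent.X7.Fiber.preimage_card d e hd1 (A.image f)
      have hsub : A ⊆ (univ : Finset (ZMod (d * e))).filter (fun x => f x ∈ A.image f) := by
        intro x hx
        rw [mem_filter]
        exact ⟨mem_univ x, mem_image_of_mem f hx⟩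
      have := card_le_card hsub
      rw [hfib] at this
      have h9 : ((A.card : ℕ) : ℤ) ≤ ((A.image f).card : ℤ) * e := by exact_mod_cast this
      linarith [mul_comm ((A.image f).card : ℤ) (e : ℤ)]

/-- Construction of a sum-free interval from the criterion. -/
theorem exists_interval (n k l c : ℕ) [NeZero n] (hl : 1 ≤ l) (hlk : l < k) (hc : 2 ≤ c) (m : ℕ)
    (hm : 1 ≤ m) (h : Crit n k l c m) :
    m ≤ n ∧ ∃ a : ZMod n, NoisySumFree k l c (iv a m) := by
  obtain ⟨t, hdvd, ht1, ht2⟩ := h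
  have hl' : (1 : ℤ) ≤ l := by exact_mod_cast hl
  have hk' : (l : ℤ) < k := by exact_mod_cast hlk
  have hc' : (2 : ℤ) ≤ c := by exact_mod_cast hc
  have hm' : (1 : ℤ) ≤ m := by exact_mod_cast hm
  have hn : 0 < n := Nat.pos_of_ne_zero (NeZero.ne n)
  constructor
  · have h1 : (0 : ℤ) ≤ ((k : ℤ) - 1) * ((c : ℤ) - 2) := mul_nonneg (by linarith) (by linarith)
    have h2 : (0 : ℤ) ≤ ((l : ℤ) - 1) * ((c : ℤ) - 2) := mul_nonneg (by linarith) (by linarith)
    have h3 : (m : ℤ) ≤ k * m := by nlinarith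
    have h4 : (0 : ℤ) ≤ l * m := by positivity
    have : (m : ℤ) ≤ n := by linarith
    exact_mod_cast this
  · -- choose `a` with `(k - l) a ≡ -t`
    obtain ⟨q, hq⟩ := hdvd
    have hbez := Nat.gcd_eq_gcd_ab n (k - l)
    set a : ZMod n := ((-(Nat.gcdB n (k - l)) * q : ℤ) : ZMod n) with ha
    have hw : k • a - l • a = ((-t : ℤ) : ZMod n) := by
      have hkl : ((k - l : ℕ) : ZMod n) = (k : ZMod n) - (l : ZMod n) := by
        rw [Nat.cast_sub hlk.le]
      have h1 : k • a - l • a = ((k - l : ℕ) : ZMod n) * a := by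
        rw [hkl, nsmul_eq_mul, nsmul_eq_mul]; ring
      rw [h1, ha, hq, hbez]
      push_cast
      rw [ZMod.natCast_self]
      ring
    refine ⟨a, ?_⟩
    unfold NoisySumFree
    rw [star_iv a (by omega) k m hm, star_iv a (by omega) l m hm, disjoint_left]
    intro z hz1 hz2
    obtain ⟨u, hu, rfl⟩ := mem_iv.1 hz1
    obtain ⟨v, hv, huv⟩ := mem_iv.1 hz2
    have h1 : ((t - u + v : ℤ) : ZMod n) = 0 := by
      push_cast
      have h2 : (t : ZMod n) = -(k • a - l • a) := by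
        rw [hw]; push_cast; ring
      rw [h2]
      have h3 : (v : ZMod n) = k • a + (u : ZMod n) - l • a := by rw [← huv]; ring
      rw [h3]
      ring
    rw [ZMod.intCast_zmod_eq_zero_iff_dvd] at h1
    have eQ : ((k * (m - 1) + (k - 1) * (c - 1) + 1 : ℕ) : ℤ) =
        (k : ℤ) * m + ((k : ℤ) - 1) * ((c : ℤ) - 2) := by
      obtain ⟨p, rfl⟩ : ∃ p, m = p + 1 := ⟨m - 1, by omega⟩
      obtain ⟨q, rfl⟩ : ∃ q, c = q + 1 := ⟨c - 1, by omega⟩
      obtain ⟨i, rfl⟩ : ∃ i, k = i + 1 := ⟨k - 1, by omega⟩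
      simp only [Nat.add_sub_cancel]
      push_cast
      ring
    have eP : ((l * (m - 1) + (l - 1) * (c - 1) + 1 : ℕ) : ℤ) =
        (l : ℤ) * m + ((l : ℤ) - 1) * ((c : ℤ) - 2) := by
      obtain ⟨p, rfl⟩ : ∃ p, m = p + 1 := ⟨m - 1, by omega⟩
      obtain ⟨q, rfl⟩ : ∃ q, c = q + 1 := ⟨c - 1, by omega⟩
      obtain ⟨i, rfl⟩ : ∃ i, l = i + 1 := ⟨l - 1, by omega⟩
      simp only [Nat.add_sub_cancel]
      push_cast
      ring
    have hu' : (u : ℤ) < ((k * (m - 1) + (k - 1) * (c - 1) + 1 : ℕ) : ℤ) := by exact_mod_cast hu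
    have hv' : (v : ℤ) < ((l * (m - 1) + (l - 1) * (c - 1) + 1 : ℕ) : ℤ) := by exact_mod_cast hv
    rw [eQ] at hu'
    rw [eP] at hv'
    have hpos : 0 < t - u + v := by
      have : (0 : ℤ) ≤ v := by positivity
      linarith
    have hlt : t - u + v < n := by
      have : (0 : ℤ) ≤ u := by positivity
      linarith
    have := Int.le_of_dvd hpos h1
    linarith

/-- For all `n ≥ 1`, `k > ℓ ≥ 1` and `c ≥ 2`, `μ^C_{k,ℓ}(ℤ/n) = max {0, L}` for
`C = {0, …, c-1}`, and the maximum is attained by an interval. -/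
theorem result : ∀ n k l c : ℕ, 1 ≤ n → 1 ≤ l → l < k → 2 ≤ c →
    (mu n k l c : ℤ) = max 0 (bigL n k l c) ∧
      ∃ a : ZMod n, NoisySumFree k l c (iv a (mu n k l c)) ∧
        (iv a (mu n k l c)).card = mu n k l c := by
  intro n k l c hn hl hlk hc
  have : NeZero n := ⟨by omega⟩
  have hbdd : BddAbove {m | ∃ A : Finset (ZMod n), NoisySumFree k l c A ∧ A.card = m} := by
    refine ⟨n, ?_⟩
    rintro m ⟨A, -, rfl⟩
    calc A.card ≤ Fintype.card (ZMod n) := card_le_univ A
      _ = n := ZMod.card n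
  have hempty : NoisySumFree k l c (∅ : Finset (ZMod n)) := by
    unfold NoisySumFree star
    obtain ⟨i, rfl⟩ : ∃ i, k = i + 1 := ⟨k - 1, by omega⟩
    rw [sm_succ, add_empty, empty_add]
    exact disjoint_empty_left _
  have hne : {m | ∃ A : Finset (ZMod n), NoisySumFree k l c A ∧ A.card = m}.Nonempty :=
    ⟨0, ∅, hempty, card_empty⟩
  have hmu : (mu n k l c : ℤ) = max 0 (bigL n k l c) := by
    apply le_antisymm
    · obtain ⟨A, hA, hcard⟩ := Nat.sSup_mem hne hbdd
      have hcard' : A.card = mu n k l c := hcard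
      rw [← hcard']
      rcases A.eq_empty_or_nonempty with rfl | hAne
      · rw [card_empty]; exact le_max_left _ _
      · exact le_trans (le_bigL_of_crit hl hlk _ (crit_of_sumFree n n k l c le_rfl hl hlk hc A hAne hA))
          (le_max_right _ _)
    · apply max_le (by positivity)
      rcases lt_or_ge 0 (bigL n k l c) with hpos | hneg
      · have hcrit := crit_bigL (n := n) (c := c) hl hlk
        obtain ⟨m, hm⟩ : ∃ m : ℕ, (m : ℤ) = bigL n k l c := ⟨(bigL n k l c).toNat,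
          Int.toNat_of_nonneg hpos.le⟩
        rw [← hm] at hcrit hpos ⊢
        have hm1 : 1 ≤ m := by exact_mod_cast hpos
        obtain ⟨hmn, a, ha⟩ := exists_interval n k l c hl hlk hc m hm1 hcrit
        have : m ≤ mu n k l c := le_csSup hbdd ⟨iv a m, ha, iv_card a m hmn⟩
        exact_mod_cast this
      · exact le_trans hneg (by positivity)
  refine ⟨hmu, ?_⟩
  rcases Nat.eq_zero_or_pos (mu n k l c) with h0 | hpos
  · rw [h0]
    refine ⟨0, ?_, by unfold iv; simp⟩
    have : iv (0 : ZMod n) 0 = ∅ := by unfold iv; simp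
    rw [this]
    exact hempty
  · have hL : (mu n k l c : ℤ) = bigL n k l c := by
      rcases le_total (bigL n k l c) 0 with h | h
      · rw [max_eq_left h] at hmu
        have : mu n k l c = 0 := by exact_mod_cast hmu
        omega
      · rwa [max_eq_right h] at hmu
    have hcrit := crit_bigL (n := n) (c := c) hl hlk
    rw [← hL] at hcrit
    obtain ⟨hmn, a, ha⟩ := exists_interval n k l c hl hlk hc _ hpos hcrit
    exact ⟨a, ha, iv_card a _ hmn⟩

end Pool.Agent.Results.MP_4e78b4_co.IntervalNoise
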